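import Pool.Agent.U239.BL.Stm

/-!
# Project BL (helper239), package LOG: the sum over dyadic ranges
-/

set_option autoImplicit false

open scoped Classical

namespace Pool.Agent.U427.BL

open Pool.Agent.U239.BL

/-- **LOG** -/
theorem t_LOG : S_LOG := by
  intro N α h G c C T₀ S hN hc hh hS hlow hup
  have hmono : ∀ T T' : ℝ, T ≤ T' → S T ⊆ S T' := by
    intro T T' hT x hx
    rw [hS] at hx ⊢
    exact ⟨hx.1, hx.2.trans hT⟩
  have hC : c ≤ C := by
    have h1 := hlow (max T₀ 1) (le_max_left _ _)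
    have h2 := hup (max T₀ 1) (le_max_right _ _)
    have h3 : 0 < (max T₀ 1) ^ N := pow_pos (lt_of_lt_of_le one_pos (le_max_right _ _)) _
    exact le_of_mul_le_mul_right (h1.trans h2) h3
  obtain ⟨D, hD⟩ := exists_nat_gt (2 * C / c)
  have hD2 : (2 : ℝ) < D := by
    refine lt_of_le_of_lt ?_ hD
    rw [le_div_iff₀ hc]
    linarith
  have hD1 : (1 : ℝ) < D := by linarith
  have hD0 : (0 : ℝ) < D := by linarith
  have hDN : 2 * C ≤ c * (D : ℝ) ^ N := by
    have h1 : (D : ℝ) ≤ (D : ℝ) ^ N := le_self_pow₀ hD1.le (by omega)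
    have h2 : 2 * C < D * c := (div_lt_iff₀ hc).mp hD
    nlinarith
  obtain ⟨j₀, hj₀⟩ := pow_unbounded_of_one_lt (max T₀ 1) hD1
  have key : ∀ j : ℕ, c / 2 * j ≤ ∑ x ∈ S ((D : ℝ) ^ (j₀ + j)), 1 / h x ^ N := by
    intro j
    induction j with
    | zero =>
      rw [Nat.cast_zero, mul_zero]
      exact Finset.sum_nonneg fun x _ => by
        have := hh x
        positivity
    | succ j ih =>
      obtain ⟨A, hA⟩ : ∃ A : ℝ, A = (D : ℝ) ^ (j₀ + j) := ⟨_, rfl⟩
      have hA1 : max T₀ 1 ≤ A := by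
        rw [hA]
        refine hj₀.le.trans (pow_le_pow_right₀ hD1.le (by omega))
      have hA0 : 0 < A := lt_of_lt_of_le one_pos ((le_max_right _ _).trans hA1)
      have hB : (D : ℝ) ^ (j₀ + (j + 1)) = A * D := by
        rw [hA, ← pow_succ]
        rfl
      rw [hB]
      rw [← hA] at ih
      have hAB : A ≤ A * D := le_mul_of_one_le_right hA0.le hD1.le
      have hsub := hmono A (A * D) hAB
      have h1 := hlow (A * D) (((le_max_left _ _).trans hA1).trans hAB)
      have h2 := hup A ((le_max_right _ _).trans hA1)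
      have h3 : ((S (A * D) \ S A).card : ℝ) + ((S A).card : ℝ) = ((S (A * D)).card : ℝ) := by
        exact_mod_cast Finset.card_sdiff_add_card_eq_card hsub
      have hP : 0 < (A * D) ^ N := pow_pos (mul_pos hA0 hD0) _
      have h4 : c / 2 * (A * D) ^ N ≤ ((S (A * D) \ S A).card : ℝ) := by
        have h5 : C * A ^ N ≤ c / 2 * (A * D) ^ N := by
          rw [mul_pow]
          have h6 : 0 < A ^ N := pow_pos hA0 _
          nlinarith
        linarith
      have h7 : ((S (A * D) \ S A).card : ℝ) * (1 / (A * D) ^ N) ≤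
          ∑ x ∈ S (A * D) \ S A, 1 / h x ^ N := by
        rw [← nsmul_eq_mul]
        refine Finset.card_nsmul_le_sum _ _ _ fun x hx => ?_
        have hx1 : x ∈ S (A * D) := (Finset.mem_sdiff.mp hx).1
        rw [hS] at hx1
        have hx2 := hh x
        exact one_div_le_one_div_of_le (by positivity) (pow_le_pow_left₀ (by linarith) hx1.2 _)
      have h8 : c / 2 ≤ ((S (A * D) \ S A).card : ℝ) * (1 / (A * D) ^ N) := by
        rw [mul_one_div, le_div_iff₀ hP]
        exact h4
      rw [← Finset.sum_sdiff hsub]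
      push_cast
      linarith
  have hlD : 0 < Real.log D := Real.log_pos hD1
  refine ⟨c / (4 * Real.log D), (D : ℝ) ^ (2 * (j₀ + 1)), by positivity, fun X hX => ?_⟩
  have hX1 : 1 ≤ X := (one_le_pow₀ hD1.le).trans hX
  have hX0 : 0 < X := by linarith
  obtain ⟨y, hy⟩ : ∃ y : ℝ, y = Real.log X / Real.log D := ⟨_, rfl⟩
  have hylog : Real.log X = y * Real.log D := by
    rw [hy, div_mul_cancel₀ _ hlD.ne']
  have hy1 : (2 * (j₀ + 1) : ℝ) ≤ y := by
    rw [hy, le_div_iff₀ hlD]
    have := Real.log_le_log (by positivity) hX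
    rw [Real.log_pow] at this
    push_cast at this
    exact this
  have hy0 : 0 ≤ y := le_trans (by positivity) hy1
  have hfl := Nat.lt_floor_add_one y
  have hfle := Nat.floor_le hy0
  have hj : j₀ ≤ ⌊y⌋₊ := by
    apply Nat.le_floor
    have : (0 : ℝ) ≤ j₀ := by positivity
    linarith
  obtain ⟨j, hj'⟩ := Nat.exists_eq_add_of_le hj
  have hle : (D : ℝ) ^ (j₀ + j) ≤ X := by
    rw [← Real.log_le_log_iff (by positivity) hX0, Real.log_pow, hylog]
    rw [← hj']
    exact mul_le_mul_of_nonneg_right hfle hlD.le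
  have h9 : ∑ x ∈ S ((D : ℝ) ^ (j₀ + j)), 1 / h x ^ N ≤ ∑ x ∈ S X, 1 / h x ^ N :=
    Finset.sum_le_sum_of_subset_of_nonneg (hmono _ _ hle) fun x _ _ => by
      have := hh x
      positivity
  refine le_trans ?_ ((key j).trans h9)
  rw [hylog]
  have e : c / (4 * Real.log D) * (y * Real.log D) = c / 4 * y := by
    field_simp
  rw [e]
  have h10 : y < (j₀ : ℝ) + j + 1 := by
    have : ((⌊y⌋₊ : ℕ) : ℝ) = (j₀ : ℝ) + j := by rw [hj']; push_cast; rfl
    rw [this] at hfl
    exact hfl
  nlinarith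

end Pool.Agent.U427.BL
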